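import Mathlib
import Pool.Agent.H358R5.MainC
import Pool.Agent.H672R3.HomPat

/-!
# Homogeneous sets of patterns of consecutive primes

`Realised S`: for every `ε > 0` and arbitrarily large `x`, at least `x ^ (1 - ε)` integers `n ≤ x`
realise the pattern `S` as consecutive primes (the `n + s`, `s` in `S`, are prime and no other
integer between them is prime).

* For all `k ≥ 2` and `m` there is `C` such that for any `m` injective maps `f_i` from a set with at
  least `C` elements to `ℤ`, some `k`-element subset `T` has all its images `f_i(T)` realised.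
* On an infinite set there is an infinite subset all of whose `k`-element subsets have this property.
* For any sequence of injective maps `f_i : ℕ → ℤ` there is `s_0 < s_1 < ...` such that for `i ≤ j`
  and `2 ≤ k ≤ j` all `k`-element subsets of `f_i({s_j, s_{j+1}, ...})` are realised.
* For `k ≥ 2` and every finite set `F` of positive integers there is `C` such that for every `N ≥ 1`
  some `k`-element set `T` of integers in `[0, C]` has all dilates `N r T`, `r` in `F`, realised.

The existence of one realised pattern with `k` elements in every large admissible set (Maynard,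
Tao; Pintz for consecutive primes) is `Pool.Agent.H358R5.pattern_many` (starting repository).
-/

set_option autoImplicit false

namespace Pool.Agent.Results.MP_3ec731_nt.HomogeneousPatterns

open Pool.Agent.H672R3.HomPat

/-- for every `ε > 0` and arbitrarily large `x`, at least `x ^ (1 - ε)` integers `n ≤ x` are such
that the `n + s`, `s` in `S`, are prime and are the only primes between the least and the largest
of them -/
def Realised (S : Finset ℤ) : Prop :=
  ∀ ε : ℝ, 0 < ε → ∃ᶠ x : ℝ in Filter.atTop,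
    x ^ (1 - ε) ≤ (Set.ncard {n : ℕ | (n : ℝ) ≤ x ∧ (∀ s ∈ S, ∃ p : ℕ, p.Prime ∧ (p : ℤ) = n + s) ∧
      ∀ p : ℕ, p.Prime → (∃ s ∈ S, ∃ t ∈ S, (n : ℤ) + s ≤ p ∧ (p : ℤ) ≤ n + t) →
        ∃ s ∈ S, (p : ℤ) = n + s} : ℝ)

/-- the lower part of a realised pattern is realised -/
lemma realised_lower {S T : Finset ℤ} (hTS : T ⊆ S) (hl : ∀ h ∈ S, ∀ t ∈ T, h ≤ t → h ∈ T)
    (h : Realised S) : Realised T := by
  intro ε hε
  refine (h ε hε).mono fun x hx => hx.trans ?_
  norm_cast
  apply Set.ncard_le_ncard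
  · rintro n ⟨h1, h2, h3⟩
    refine ⟨h1, fun s hs => h2 s (hTS hs), fun p hp => ?_⟩
    rintro ⟨s, hs, t, ht, g1, g2⟩
    obtain ⟨u, hu, hpu⟩ := h3 p hp ⟨s, hTS hs, t, hTS ht, g1, g2⟩
    exact ⟨u, hl u hu t ht (by omega), hpu⟩
  · apply (Set.finite_Iic ⌊x⌋₊).subset
    intro n hn
    exact Nat.le_floor hn.1

/-- a large set of integers contains an admissible set of given size -/
lemma admissible_subset (K : ℕ) (H : Finset ℤ) (hH : K.factorial * K ≤ H.card) :
    ∃ H' ⊆ H, H'.card = K ∧ ∀ p : ℕ, p.Prime → ∃ r : ℤ, ∀ h ∈ H', ¬ (p : ℤ) ∣ r + h := by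
  classical
  have hpos : 0 < K.factorial := Nat.factorial_pos K
  obtain ⟨c, -, hc⟩ := Finset.exists_le_card_fiber_of_mul_le_card_of_maps_to
    (s := H) (t := Finset.Ico (0 : ℤ) K.factorial) (f := fun h => h % (K.factorial : ℤ)) (n := K)
    (fun h _ => Finset.mem_Ico.2 ⟨Int.emod_nonneg _ (by exact_mod_cast hpos.ne'),
      Int.emod_lt_of_pos _ (by exact_mod_cast hpos)⟩)
    (by rw [Finset.nonempty_Ico]; exact_mod_cast hpos)
    (by rw [Int.card_Ico]; simpa using hH)
  obtain ⟨H', hH', hH'c⟩ := Finset.exists_subset_card_eq hc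
  refine ⟨H', hH'.trans (Finset.filter_subset _ _), hH'c, fun p hp => ?_⟩
  have hmod : ∀ h ∈ H', h % (K.factorial : ℤ) = c := fun h hh => (Finset.mem_filter.1 (hH' hh)).2
  rcases Nat.lt_or_ge K p with hKp | hKp
  · -- large primes: not all classes are occupied
    by_contra hcon
    push Not at hcon
    choose! g hg1 hg2 using hcon
    have hinj : Set.InjOn (fun a : ℕ => g (a : ℤ)) (Finset.range p : Set ℕ) := by
      intro a ha b hb hab
      have ha' := Finset.mem_range.1 ha
      have hb' := Finset.mem_range.1 hb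
      have h1 := hg2 (a : ℤ)
      have h2 := hg2 (b : ℤ)
      simp only at hab
      rw [hab] at h1
      have h3 : (p : ℤ) ∣ (a : ℤ) - b := by
        have := dvd_sub h1 h2
        rwa [add_sub_add_right_eq_sub] at this
      have h5 : (a : ℤ) % p = (b : ℤ) % p := Int.emod_eq_emod_iff_emod_sub_eq_zero.2
        (Int.emod_eq_zero_of_dvd h3)
      rw [Int.emod_eq_of_lt (by positivity) (by exact_mod_cast ha'),
        Int.emod_eq_of_lt (by positivity) (by exact_mod_cast hb')] at h5
      exact_mod_cast h5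
    have h1 : ((Finset.range p).image (fun a : ℕ => g (a : ℤ))).card = p := by
      rw [Finset.card_image_of_injOn hinj, Finset.card_range]
    have h2 : (Finset.range p).image (fun a : ℕ => g (a : ℤ)) ⊆ H' := by
      intro x hx
      obtain ⟨a, _, rfl⟩ := Finset.mem_image.1 hx
      exact hg1 _
    have h3 := Finset.card_le_card h2
    omega
  · -- small primes: all elements are congruent
    refine ⟨1 - c, fun h hh hdvd => ?_⟩
    have h1 : (p : ℤ) ∣ (K.factorial : ℤ) := by
      exact_mod_cast (hp.dvd_factorial).2 hKp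
    have h2 : (K.factorial : ℤ) ∣ h - c := by
      rw [← hmod h hh]
      exact Int.dvd_self_sub_emod
    have h3 : (p : ℤ) ∣ (1 - c + h) - (h - c) := dvd_sub hdvd (h1.trans h2)
    have h4 : (1 - c + h) - (h - c) = 1 := by ring
    rw [h4] at h3
    have h5 : p ∣ 1 := by exact_mod_cast h3
    exact hp.one_lt.ne' (Nat.dvd_one.1 h5)

theorem pat (k : ℕ) (hk : 2 ≤ k) : ∃ C, Pat Realised k C := by
  -- patterns with `m + 1 ≥ k` elements
  obtain ⟨m, hm, hkm⟩ : ∃ m : ℕ, 2 ≤ m ∧ k ≤ m + 1 := ⟨k, hk, by omega⟩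
  obtain ⟨K, hK⟩ := exists_nat_ge (Real.exp (4 * m + 29 / 50))
  refine ⟨K.factorial * K, fun H hH => ?_⟩
  obtain ⟨H', hH', hH'c, hadm⟩ := admissible_subset K H hH
  obtain ⟨S, hS, hSc, hR⟩ := Pool.Agent.H358R5.pattern_many m hm H' (by
    rw [hH'c, Real.le_log_iff_exp_le (lt_of_lt_of_le (Real.exp_pos _) hK)]
    exact hK) hadm
  obtain ⟨T, hT, hTc, hl⟩ := Pool.Agent.H358R5.PAT_lower S k (by omega)
  exact ⟨T, hT.trans (hS.trans hH'), hTc, realised_lower hT hl hR⟩

open Classical in
theorem result :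
    -- finite sets, finitely many maps
    (∀ k : ℕ, 2 ≤ k → ∀ m : ℕ, ∃ C : ℕ, ∀ (X : Type) (S : Finset X) (f : Fin m → X → ℤ),
      (∀ i, Function.Injective (f i)) → C ≤ S.card →
        ∃ T ⊆ S, T.card = k ∧ ∀ i, Realised (T.image (f i))) ∧
    -- infinite sets, finitely many maps
    (∀ k : ℕ, 2 ≤ k → ∀ (m : ℕ) (X : Type) (f : Fin m → X → ℤ),
      (∀ i, Function.Injective (f i)) → ∀ Y : Set X, Y.Infinite →
        ∃ Z ⊆ Y, Z.Infinite ∧ ∀ U : Finset X, (U : Set X) ⊆ Z → U.card = k →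
          ∀ i, Realised (U.image (f i))) ∧
    -- sequences of maps, all sizes
    (∀ f : ℕ → ℕ → ℤ, (∀ i, Function.Injective (f i)) →
      ∃ s : ℕ → ℕ, StrictMono s ∧ ∀ i k j : ℕ, i ≤ j → 2 ≤ k → k ≤ j →
        ∀ U : Finset ℕ, U.card = k → (∀ u ∈ U, ∃ t, j ≤ t ∧ u = s t) →
          Realised (U.image (f i))) ∧
    -- dilates
    (∀ k : ℕ, 2 ≤ k → ∀ F : Finset ℕ, 0 ∉ F → ∃ C : ℕ, ∀ N : ℕ, 1 ≤ N →
      ∃ T : Finset ℕ, T.card = k ∧ (∀ t ∈ T, t ≤ C) ∧
        ∀ r ∈ F, Realised (T.image (fun t : ℕ => ((N * r * t : ℕ) : ℤ)))) := by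
  refine ⟨fun k hk m => ?_, fun k hk m X f hf Y hY => ?_, fun f hf => diag pat f hf,
    fun k hk F hF => ?_⟩
  · obtain ⟨C0, hC0⟩ := pat k hk
    obtain ⟨C, hC⟩ := fin_maps hC0 m
    refine ⟨C, fun X S f hf hS => ?_⟩
    obtain ⟨T, hT, hTk, hR⟩ := hC X S f hf hS
    exact ⟨T, hT, hTk, hR⟩
  · obtain ⟨Z, hZY, hZ, hR⟩ := inf_list pat f hf (Finset.univ ×ˢ {k}) Y hY
    exact ⟨Z, hZY, hZ, fun U hU hUk i => hR (i, k) (by simp) hk U hU hUk⟩
  · obtain ⟨C0, hC0⟩ := pat k hk
    obtain ⟨C, hC⟩ := fin_maps hC0 F.card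
    refine ⟨C, fun N hN => ?_⟩
    let e := F.equivFin.symm
    obtain ⟨T, hT, hTk, hR⟩ := hC ℕ (Finset.range C) (fun i x => ((N * (e i : ℕ) * x : ℕ) : ℤ)) (by
      intro i x y hxy
      have h0 : N * (e i : ℕ) ≠ 0 := by
        apply Nat.mul_ne_zero (by omega)
        intro h0
        apply hF
        rw [← h0]
        exact (e i).2
      have h1 : N * (e i : ℕ) * x = N * (e i : ℕ) * y := by
        have hxy' : ((N * (e i : ℕ) * x : ℕ) : ℤ) = ((N * (e i : ℕ) * y : ℕ) : ℤ) := hxy
        exact_mod_cast hxy'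
      exact Nat.eq_of_mul_eq_mul_left (Nat.pos_of_ne_zero h0) h1) (by simp)
    refine ⟨T, hTk, fun t ht => (Finset.mem_range.1 (hT ht)).le, fun r hr => ?_⟩
    have h1 := hR (e.symm ⟨r, hr⟩)
    simp only [Equiv.apply_symm_apply] at h1
    exact h1

end Pool.Agent.Results.MP_3ec731_nt.HomogeneousPatterns
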