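import Pool.Agent.H732R3.HausC
import Pool.Agent.H362R2.CM.Final

/-!
# Up to a bounded error, long stretches of primes follow every finite pattern

For all `k`, `m`, `q` and every `r` prime to `q` there is `C` such that for every nonempty set `V` of at most
`k` integers there is a finite set `H` of integers, at least `m` of them within distance `C` of each
element of `V` and every one of them within distance `C` of `V`, such that for every `R` there are infinitely
many `n` for which the primes within distance `R` of `n` are exactly the numbers `n + h`, `h ∈ H`,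
`|h| ≤ R`, and all `n + h`, `h ∈ H`, are congruent to `r` modulo `q`.

The coloured Maynard-Tao theorem (`Pool.Agent.H362R2.CM.Final`) is combined with the density
Hales-Jewett theorem (`Pool.Agent.Helper903.DHJ`), both of the starting files, applied to configurations of
positions with rapidly growing scales.
-/

namespace Pool.Agent.Results.MP_3ec731_nt.PrimesFollowEverySet

theorem result (k m q : ℕ) (r : ℤ) (hq : 1 ≤ q) (hr : IsCoprime r (q : ℤ)) :
    ∃ C : ℕ, ∀ V : Finset ℤ, V.Nonempty → V.card ≤ k →
    ∃ H : Finset ℤ, (∀ x ∈ V, m ≤ (H.filter (fun h => |h - x| ≤ C)).card) ∧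
      (∀ h ∈ H, ∃ x ∈ V, |h - x| ≤ C) ∧
      ∀ R : ℕ, {n : ℕ | (∀ y : ℤ, |y| ≤ R → ((∃ p : ℕ, p.Prime ∧ (p : ℤ) = n + y) ↔ y ∈ H)) ∧
        ∀ h ∈ H, (n : ℤ) + h ≡ r [ZMOD q]}.Infinite :=
  Pool.Agent.H732R3.HausQ.hausdorff Pool.Agent.H362R2.CM.quarter k m q r hq hr

end Pool.Agent.Results.MP_3ec731_nt.PrimesFollowEverySet
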